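import Pool.Agent.Y516.OJ.Final
import Pool.Agent.Y516.OJ.ReachFin

set_option autoImplicit false

/-!
# Reachability oracles: quadratic space, if only one of the cells read depends on all arcs

A directed graph with `n` vertices and at most `n` arcs is preprocessed. Its arcs are divided into
those with a tail less than a threshold `c` and the others. The memory has `s` cells of `w` bits,
which may be *arbitrary* functions of the graph, and in addition an unlimited memory with arbitrary
functions of one of the two classes of arcs alone. A query asks whether there is a path from `x` to
`y`. One of the `s` joint cells is read; its address may be an *arbitrary* function of `x`, `y`, the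
first class of arcs and public random bits. Then the query is answered by an arbitrary
communication protocol of at most `b` bits between the two classes; for instance, `T` adaptive
probes of cells of the one-sided memory are such a protocol with `b = w T`. If the error probability
is at most `1 / (2 * 10 ^ 6)` and `n ≥ 4 * 10 ^ 14 * (b + l) ^ 2 * w ^ 2`, then

  `n ^ 2 ≤ 10 ^ 20 * (b + l) ^ 2 * w ^ 3 * s`, where `l = ⌈2 log₂ n⌉`,

and `l = 0` suffices if the address is a function of the query and the random bits only. So in this
model query time `T ≤ √n / polylog` needs space `n ^ 2 / (T ^ 2 polylog)`, and polylogarithmic query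
time needs space `Ω~(n ^ 2)`, which suffices.

Proof. The graphs have `k` sources, `u` middle vertices and `k` targets, `k = n / ((b + l) w)` and
`u = ((b + l) w) ^ 2` up to constants; an arc from a source to a middle vertex or from a middle
vertex to a target is present with probability `Θ(1 / ((b + l) w))`, independently. Reachability of
a target from a source is the disjointness of two random sets, and the direct product theorem for
overlapping pairs described in `Pool.Agent.Results.MP_e016b3_lc.AdaptiveJointProbe` applies.
-/

namespace Pool.Agent.Results.MP_dd2a0a_lc.AdaptiveJointProbe

open Pool.Agent.Y516.OJ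

/-- There is a threshold `c` such that every random reachability oracle with `s` joint cells of `w`
bits, one joint probe (the address is a function of the query and of the arcs with a tail less than
`c`) and protocols of `b` bits between these arcs and the others satisfies
`n ^ 2 ≤ 10 ^ 20 * (b + l) ^ 2 * w ^ 3 * s`, if `n ^ 2 ≤ 2 ^ l` or if the addresses do not depend on
the graph. -/
theorem result (n w b l : ℕ) (hw : 1 ≤ w) (hb : 1 ≤ b)
    (hn : 4 * 10 ^ 14 * (b + l) ^ 2 * w ^ 2 ≤ n) :
    ∃ c : ℕ, ∀ (s : ℕ) (Ω : Type) [Fintype Ω] (p : Ω → ℝ) (D : Ω → ReachDS n w s),
      (n ^ 2 ≤ 2 ^ l ∨ ∀ ω x y E E', (D ω).addr x y E = (D ω).addr x y E') →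
      SolvesReach b c p D → n ^ 2 ≤ 10 ^ 20 * (b + l) ^ 2 * w ^ 3 * s :=
  reach_main coreThm adThm2 n w b l hw hb hn

end Pool.Agent.Results.MP_dd2a0a_lc.AdaptiveJointProbe
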